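import Pool.Agent.U402.HC.MainL

/-!
Problem MP_688fd0_co: closed listing sequences (Hamiltonian cycles in Cayley graphs) for connection
sets which satisfy a condition inside one subgroup, and after the addition of a bounded number of
elements to an arbitrary connection set.

Let `A` be a symmetric generating set of a finite group `G`.

(1) `Cay(G, A)` has a Hamiltonian cycle in each of the following cases. There is no condition on `G`,
on the index of the subgroup `H`, or on the elements of `A` outside `H`.

* (complete) `A` contains all elements other than `1` of a subgroup `H` of order at least `24`;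
* (dense) `A` contains at least `(|H| + 101) / 2` elements other than `1` of a subgroup `H`;
* (powers) `A` contains the powers `h, h ^ 2, …, h ^ 454`, as far as they are different from `1`, of an
  element `h` of order at least `24`;
* (linked) there is a subgroup `H` of order at least `98` such that in `Cay(H, A ∩ H)` any at most `50`
  disjoint pairs of elements are linked by disjoint paths which cover `H`.

(2) There is a symmetric set `B` with at most `5354228880` elements, and with at most `908` elements if
`|G| > 5354228880`, such that `Cay(G, A ∪ B)` has a Hamiltonian cycle. So the conjecture is true up to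
the addition of a bounded number of elements to the connection set.

Idea of the proof. Let `S ⊆ A` be an irredundant set with `G = ⟨H, S⟩`. The arcs `x → x s` (`x ∈ G`,
`s ∈ S`) make the set `G / H` of the left cosets into a multigraph. If `U` is a union of some, but not
all, of the cosets, then at least `|H| |S|` arcs leave `U`: an atom argument shows that at least `|K|`
arcs with label `s` leave `U`, if there are any, where `K` is generated by `H` and those `s' ∈ S` for
which no arc with label `s'` leaves `U`, and `|K| ≥ 2 ^ j |H|` if there are `j` such `s'`. Hence a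
suitable constant function on the set of all arcs is a fractional packing of spanning trees of the
multigraph with small sums at the elements of `G` and bounded sums at the cosets. It is rounded by
iterative relaxation: the tight sets of the supermodular demand function form a lattice, and a
dimension count gives a direction in which the fractional vector can be moved, as long as a degree
bound is violated by too much. There remain `12` disjoint spanning trees with at most two arcs at each
element of `G` (and with at most `101` arcs at each coset); the graph of conflicts between their arcs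
has maximum degree two, and two applications of matroid union (with the dual of a partition matroid,
for the classes of a maximal matching of the conflict graph, and then for the components of what is
left, which have at most three elements) give two disjoint spanning trees such that no element of `G`
is in two of their arcs. One of these and a suitable part of the other form a connected graph with even
degrees. In an Euler tour of it the cosets are passed through by at most `50` paths each, so that
linkages of the cosets make it a Hamiltonian cycle. If `A` contains the first `454` powers of `h` then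
`Cay(H, A ∩ H)`, `H = ⟨h⟩`, contains the blow-up of a path with complete parts of at least `152`
elements, in which the linkages are easily found. For (2) one takes for `B` the first `454` powers, and
their inverses, of an element of order at least `24`, or the elements other than `1` of a subgroup of
prime power order between `24` and `529`; one of the two exists if `|G| > lcm(1, …, 23) = 5354228880`.
-/

set_option autoImplicit false

namespace Pool.Agent.Results.MP_688fd0_co.BoundedAddition

open Pool.Agent.U402.HC
open Pool.Agent.R553.SP (CC)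

universe u

/-- `a_1, …, a_n ∈ A`, where `n = |G|`, have pairwise distinct partial products
`a_1, a_1 a_2, …, a_1 ⋯ a_n`, the last of which is `1`. -/
def ClosedListing {G : Type u} [Group G] (A : Set G) (a : Fin (Nat.card G) → G) : Prop :=
  (∀ i, a i ∈ A) ∧
  Function.Injective (fun k : Fin (Nat.card G) => ((List.ofFn a).take (k.val + 1)).prod) ∧
  (List.ofFn a).prod = 1

/-- `A` contains all elements other than `1` of a subgroup of order at least `24`. -/
def Complete {G : Type u} [Group G] (A : Set G) : Prop :=
  ∃ H : Subgroup G, 24 ≤ Nat.card H ∧ ∀ x ∈ H, x ≠ 1 → x ∈ A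

/-- `A` contains at least `(|H| + 101) / 2` elements other than `1` of a subgroup `H`. -/
def Dense {G : Type u} [Group G] (A : Set G) : Prop :=
  ∃ H : Subgroup G, Nat.card H + 101 ≤ 2 * Set.ncard {x | x ∈ A ∧ x ∈ H ∧ x ≠ 1}

/-- `A` contains those of the powers `h, h ^ 2, …, h ^ 454` which are different from `1`, for an
element `h` of order at least `24`. -/
def Powers {G : Type u} [Group G] (A : Set G) : Prop :=
  ∃ h : G, 24 ≤ orderOf h ∧ ∀ i : ℕ, 1 ≤ i → i ≤ 454 → h ^ i ≠ 1 → h ^ i ∈ A

/-- Any `1, …, r` disjoint pairs of elements of `H` are linked by disjoint paths of `Cay(H, A ∩ H)`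
which cover `H`. -/
def SpanningLinked {G : Type u} [Group G] (A : Set G) (H : Subgroup G) (r : ℕ) : Prop :=
  ∀ (k : ℕ) (x y : Fin k → G), 0 < k → k ≤ r → (∀ i, x i ∈ H ∧ y i ∈ H) →
    Function.Injective x → Function.Injective y → (∀ i j, x i ≠ y j) →
    ∃ P : Fin k → List G, (∀ i, (P i).head? = some (x i) ∧ (P i).getLast? = some (y i) ∧
      (P i).IsChain (fun u v => u⁻¹ * v ∈ A) ∧ (P i).Nodup ∧ ∀ v ∈ P i, v ∈ H) ∧
      (∀ i j, i ≠ j → (P i).Disjoint (P j)) ∧ ∀ v ∈ H, ∃ i, v ∈ P i

/-- The covering linkages exist in a subgroup of order at least `98`. -/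
def LinkedSubgroup {G : Type u} [Group G] (A : Set G) : Prop :=
  ∃ H : Subgroup G, 98 ≤ Nat.card H ∧ SpanningLinked A H 50

/-- the local criteria for groups in `Type` -/
theorem core {G : Type} [Group G] [Finite G] (A : Set G) (hA : ∀ x ∈ A, x⁻¹ ∈ A)
    (hgen : Subgroup.closure A = ⊤)
    (h : Complete A ∨ Dense A ∨ Powers A ∨ LinkedSubgroup A) :
    ∃ L : List G, L.Nodup ∧ (∀ x, x ∈ L) ∧ CC (fun x y => x⁻¹ * y ∈ A) L := by
  classical
  have : Fintype G := Fintype.ofFinite G
  rcases h with ⟨H, h1, h2⟩ | ⟨H, h⟩ | ⟨h, h1, h2⟩ | ⟨H, h1, h2⟩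
  · exact main_clique A hA hgen H h1 h2
  · apply main_dirac A hA hgen H
    have e : Set.ncard {x | x ∈ A ∧ x ∈ H ∧ x ≠ 1} =
        (Finset.univ.filter fun x : G => x ∈ A ∧ x ∈ H ∧ x ≠ 1).card := by
      rw [← Set.ncard_coe_finset]
      congr 1
      ext x
      simp
    rw [e] at h
    exact h
  · apply main_powers A hA hgen h h1
    intro i hi1 hi2 hi3
    refine h2 i hi1 hi2 ?_
    intro h4
    have := orderOf_dvd_of_pow_eq_one h4
    have := Nat.le_of_dvd (by omega) this
    omega
  · apply main_local A hA hgen H h1
    intro ι _ x y hne hι hx hy hxi hyi hxy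
    let e : ι ≃ Fin (Fintype.card ι) := Fintype.equivFin ι
    obtain ⟨P, hP1, hP2, hP3⟩ := h2 (Fintype.card ι) (fun i => x (e.symm i)) (fun i => y (e.symm i))
      Fintype.card_pos hι (fun i => ⟨hx _, hy _⟩) (hxi.comp e.symm.injective)
      (hyi.comp e.symm.injective) (fun i j => hxy _ _)
    refine ⟨fun i => P (e i), ?_, ?_, ?_⟩
    · intro i
      have := hP1 (e i)
      rw [e.symm_apply_apply] at this
      exact this
    · intro i j hij
      exact hP2 _ _ (fun h => hij (e.injective h))
    · intro v hv
      obtain ⟨i, hi⟩ := hP3 v hv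
      refine ⟨e.symm i, ?_⟩
      change v ∈ P (e (e.symm i))
      rw [e.apply_symm_apply]; exact hi

section transport

variable {G' : Type} {G : Type u} [Group G'] [Group G] [Finite G] (φ : G' ≃* G)

include φ in
theorem finite_of : Finite G' := Finite.of_equiv G φ.symm.toEquiv

/-- the sequence from a list in an isomorphic group -/
theorem listing_of (A' : Set G') (A : Set G) (hAA : ∀ x ∈ A', φ x ∈ A)
    (h : ∃ L : List G', L.Nodup ∧ (∀ x, x ∈ L) ∧ CC (fun x y => x⁻¹ * y ∈ A') L) :
    ∃ a : Fin (Nat.card G) → G, ClosedListing A a := by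
  obtain ⟨L, hL1, hL2, hL3⟩ := h
  refine listing A (L.map φ) (hL1.map φ.injective) ?_ ?_
  · intro x
    rw [List.mem_map]
    exact ⟨φ.symm x, hL2 _, φ.apply_symm_apply x⟩
  · have himp : ∀ x y : G', x⁻¹ * y ∈ A' → (φ x)⁻¹ * φ y ∈ A := by
      intro x y h
      rw [← map_inv, ← map_mul]
      exact hAA _ h
    refine ⟨?_, ?_⟩
    · rw [List.isChain_map]
      exact hL3.1.imp himp
    · intro y hy z hz
      rw [List.getLast?_map] at hy
      rw [List.head?_map] at hz
      obtain ⟨y', hy', rfl⟩ := Option.mem_map.1 hy
      obtain ⟨z', hz', rfl⟩ := Option.mem_map.1 hz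
      exact himp _ _ (hL3.2 y' hy' z' hz')

omit [Finite G] in
theorem sym_of (A : Set G) (hA : ∀ x ∈ A, x⁻¹ ∈ A) : ∀ x ∈ φ ⁻¹' A, x⁻¹ ∈ φ ⁻¹' A := by
  intro x hx
  change φ x⁻¹ ∈ A
  rw [map_inv]
  exact hA _ hx

omit [Finite G] in
theorem gen_of (A : Set G) (hgen : Subgroup.closure A = ⊤) : Subgroup.closure (φ ⁻¹' A) = ⊤ := by
  have h1 : (Subgroup.closure (φ ⁻¹' A)).map φ.toMonoidHom = ⊤ := by
    rw [MonoidHom.map_closure, ← hgen]
    congr 1
    exact Set.image_preimage_eq A φ.surjective
  have h2 : (⊤ : Subgroup G').map φ.toMonoidHom = ⊤ :=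
    Subgroup.map_top_of_surjective _ φ.surjective
  exact Subgroup.map_injective (f := φ.toMonoidHom) φ.injective (h1.trans h2.symm)

omit [Finite G] in
theorem card_comap (H : Subgroup G) : Nat.card (H.comap φ.toMonoidHom) = Nat.card H := by
  apply Nat.card_congr
  refine ⟨fun x => ⟨φ x.1, x.2⟩, fun y => ⟨φ.symm y.1, ?_⟩, ?_, ?_⟩
  · rw [Subgroup.mem_comap]
    change φ (φ.symm y.1) ∈ H
    rw [φ.apply_symm_apply]; exact y.2
  · intro x; apply Subtype.ext; exact φ.symm_apply_apply _
  · intro y; apply Subtype.ext; exact φ.apply_symm_apply _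

omit [Finite G] in
theorem local_of (A : Set G) (h : Complete A ∨ Dense A ∨ Powers A ∨ LinkedSubgroup A) :
    Complete (φ ⁻¹' A) ∨ Dense (φ ⁻¹' A) ∨ Powers (φ ⁻¹' A) ∨ LinkedSubgroup (φ ⁻¹' A) := by
  rcases h with ⟨H, h1, h2⟩ | ⟨H, h⟩ | ⟨h, h1, h2⟩ | ⟨H, h1, h2⟩
  · left
    refine ⟨H.comap φ.toMonoidHom, by rw [card_comap]; exact h1, ?_⟩
    intro x hx hx1
    exact h2 (φ x) hx (fun h => hx1 (φ.injective (by rw [h, map_one])))
  · right; left
    refine ⟨H.comap φ.toMonoidHom, ?_⟩
    have e : Set.ncard {x | x ∈ (φ ⁻¹' A) ∧ x ∈ H.comap φ.toMonoidHom ∧ x ≠ 1} =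
        Set.ncard {x | x ∈ A ∧ x ∈ H ∧ x ≠ 1} := by
      rw [← Set.ncard_image_of_injective _ φ.injective]
      congr 1
      ext y
      constructor
      · rintro ⟨x, ⟨h1, h2, h3⟩, rfl⟩
        exact ⟨h1, h2, fun h => h3 (φ.injective (by rw [h, map_one]))⟩
      · rintro ⟨h1, h2, h3⟩
        refine ⟨φ.symm y, ⟨?_, ?_, ?_⟩, φ.apply_symm_apply y⟩
        · change φ (φ.symm y) ∈ A
          rw [φ.apply_symm_apply]; exact h1
        · change φ (φ.symm y) ∈ H
          rw [φ.apply_symm_apply]; exact h2
        · intro h
          apply h3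
          rw [← φ.apply_symm_apply y, h, map_one]
    rw [card_comap, e]
    exact h
  · right; right; left
    refine ⟨φ.symm h, ?_, ?_⟩
    · have : orderOf (φ.symm h) = orderOf h := MulEquiv.orderOf_eq φ.symm h
      rw [this]; exact h1
    · intro i hi1 hi2 hi3
      change φ (φ.symm h ^ i) ∈ A
      rw [map_pow, φ.apply_symm_apply]
      apply h2 i hi1 hi2
      intro h4
      apply hi3
      rw [← map_pow, h4, map_one]
  · right; right; right
    refine ⟨H.comap φ.toMonoidHom, by rw [card_comap]; exact h1, ?_⟩
    intro k x y hk0 hk hxy1 hx hy hxy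
    obtain ⟨P, hP1, hP2, hP3⟩ := h2 k (fun i => φ (x i)) (fun i => φ (y i)) hk0 hk
      (fun i => ⟨(hxy1 i).1, (hxy1 i).2⟩) (φ.injective.comp hx) (φ.injective.comp hy)
      (fun i j h => hxy i j (φ.injective h))
    refine ⟨fun i => (P i).map φ.symm, ?_, ?_, ?_⟩
    · intro i
      obtain ⟨h1, h2, h3, h4, h5⟩ := hP1 i
      refine ⟨?_, ?_, ?_, h4.map φ.symm.injective, ?_⟩
      · rw [List.head?_map, h1]; simp
      · rw [List.getLast?_map, h2]; simp
      · rw [List.isChain_map]
        refine h3.imp ?_
        intro u v huv
        change φ ((φ.symm u)⁻¹ * φ.symm v) ∈ A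
        rw [map_mul, map_inv, φ.apply_symm_apply, φ.apply_symm_apply]
        exact huv
      · intro v hv
        obtain ⟨u, hu, rfl⟩ := List.mem_map.1 hv
        change φ (φ.symm u) ∈ H
        rw [φ.apply_symm_apply]
        exact h5 u hu
    · intro i j hij v hv hv'
      obtain ⟨u, hu, rfl⟩ := List.mem_map.1 hv
      obtain ⟨u', hu', he⟩ := List.mem_map.1 hv'
      rw [φ.symm.injective he] at hu'
      exact hP2 i j hij hu hu'
    · intro v hv
      obtain ⟨i, hi⟩ := hP3 (φ v) hv
      exact ⟨i, List.mem_map.2 ⟨_, hi, φ.symm_apply_apply v⟩⟩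

end transport

/-- (1) A symmetric generating set `A` of a finite group `G` which satisfies one of the conditions
`Complete`, `Dense`, `Powers`, `LinkedSubgroup` has a closed listing sequence. (2) For every symmetric
generating set `A` of a finite group `G` there is a symmetric set `B` with at most `5354228880`
elements, and with at most `908` elements if `|G| > 5354228880`, such that `A ∪ B` has a closed listing
sequence. -/
theorem result :
    (∀ (G : Type u) [Group G] [Finite G] (A : Set G), (∀ x ∈ A, x⁻¹ ∈ A) →
      Subgroup.closure A = ⊤ → (Complete A ∨ Dense A ∨ Powers A ∨ LinkedSubgroup A) →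
      ∃ a : Fin (Nat.card G) → G, ClosedListing A a) ∧
    (∀ (G : Type u) [Group G] [Finite G] (A : Set G), (∀ x ∈ A, x⁻¹ ∈ A) →
      Subgroup.closure A = ⊤ →
      ∃ B : Set G, (∀ x ∈ B, x⁻¹ ∈ B) ∧ B.ncard ≤ 5354228880 ∧
        (5354228880 < Nat.card G → B.ncard ≤ 908) ∧
        ∃ a : Fin (Nat.card G) → G, ClosedListing (A ∪ B) a) := by
  classical
  constructor
  · intro G _ _ A hA hgen h
    let φ : Shrink.{0} G ≃* G := Shrink.mulEquiv
    have : Finite (Shrink.{0} G) := finite_of φ
    exact listing_of φ (φ ⁻¹' A) A (fun x hx => hx)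
      (core (φ ⁻¹' A) (sym_of φ A hA) (gen_of φ A hgen) (local_of φ A h))
  · intro G _ _ A hA hgen
    let φ : Shrink.{0} G ≃* G := Shrink.mulEquiv
    have : Finite (Shrink.{0} G) := finite_of φ
    have : Fintype (Shrink.{0} G) := Fintype.ofFinite _
    have hcard : Nat.card (Shrink.{0} G) = Nat.card G := Nat.card_congr φ.toEquiv
    rcases Nat.lt_or_ge 5354228880 (Nat.card G) with hG | hG
    · obtain ⟨B, hB1, hB2, hB3⟩ := main_add (φ ⁻¹' A) (sym_of φ A hA) (gen_of φ A hgen)
        (by rw [hcard]; exact hG)
      have hBc : (φ '' B).ncard ≤ 908 := by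
        rw [Set.ncard_image_of_injective _ φ.injective]; exact hB2
      refine ⟨φ '' B, ?_, by omega, fun _ => hBc, ?_⟩
      · rintro _ ⟨x, hx, rfl⟩
        exact ⟨x⁻¹, hB1 x hx, map_inv φ x⟩
      · refine listing_of φ (φ ⁻¹' A ∪ B) (A ∪ φ '' B) ?_ hB3
        rintro x (hx | hx)
        · exact Or.inl hx
        · exact Or.inr ⟨x, hx, rfl⟩
    · refine ⟨Set.univ, fun x _ => Set.mem_univ _, ?_, fun h => by omega, ?_⟩
      · rw [Set.ncard_univ]; exact hG
      · rcases Nat.lt_or_ge (Nat.card G) 2 with h1 | h1
        · have h2 : Nat.card G = 1 := by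
            have : 0 < Nat.card G := Nat.card_pos
            omega
          have h3 : Subsingleton G := (Nat.card_eq_one_iff_unique.1 h2).1
          refine ⟨fun _ => 1, fun _ => Or.inr (Set.mem_univ _), ?_, Subsingleton.elim _ _⟩
          intro i j _
          apply Fin.ext
          have := i.2
          have := j.2
          omega
        · refine listing_of φ (φ ⁻¹' (A ∪ Set.univ)) (A ∪ Set.univ) (fun x hx => hx) ?_
          apply cc_all
          · rw [← Nat.card_eq_fintype_card, hcard]; exact h1
          · intro x y _
            exact Or.inr (Set.mem_univ _)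

end Pool.Agent.Results.MP_688fd0_co.BoundedAddition
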