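import Pool.Agent.U869.MgD

/-!
Problem MP_688fd0_co: closed listing sequences (Hamiltonian cycles in Cayley graphs) for connection
sets which contain an involution `z` commuting with enough of the other generators; in particular
for connection sets which contain a central involution and an element of even order at least four
of which `z` is not a power.
-/

namespace Pool.Agent.Results.MP_688fd0_co.CentralInvolution

open Pool.Agent.R759.HC Pool.Agent.U869.Mg

universe u

/-- `a_1, …, a_n ∈ A`, where `n = |G|`, have pairwise distinct partial products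
`a_1, a_1 a_2, …, a_1 ⋯ a_n`, the last of which is `1`. -/
def ClosedListing {G : Type u} [Group G] (A : Set G) (a : Fin (Nat.card G) → G) : Prop :=
  (∀ i, a i ∈ A) ∧
  Function.Injective (fun k : Fin (Nat.card G) => ((List.ofFn a).take (k.val + 1)).prod) ∧
  (List.ofFn a).prod = 1

/-- `b_1, …, b_n ∈ A ∩ K`, where `n = |K|`, have pairwise distinct partial products, the last of
which is `1`, and `b_1 = b_3 = b_5 = … = z`. So the partial products run through the subgroup `K`
along all the edges `{k, k z}`. -/
def AlternatingListing {G : Type u} [Group G] (A : Set G) (z : G) (K : Subgroup G)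
    (b : Fin (Nat.card K) → G) : Prop :=
  (∀ i, b i ∈ A ∧ b i ∈ K) ∧
  Function.Injective (fun k : Fin (Nat.card K) => ((List.ofFn b).take (k.val + 1)).prod) ∧
  (List.ofFn b).prod = 1 ∧
  ∀ i, Even i.val → b i = z

theorem alt_of_listing {G : Type u} [Group G] [Finite G] (A : Set G) (z : G) (hz2 : z * z = 1)
    (K : Subgroup G) (b : Fin (Nat.card K) → G) (hb : AlternatingListing A z K b)
    (h8 : 8 ≤ Nat.card K) : Alt A z K := by
  obtain ⟨h1, h2, h3, h4⟩ := hb
  let q : ℕ → G := fun k => ((List.ofFn b).take k).prod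
  have qK : ∀ k, q k ∈ K := by
    intro k
    apply Subgroup.list_prod_mem
    intro x hx
    have := List.mem_of_mem_take hx
    rw [List.mem_ofFn] at this
    obtain ⟨i, rfl⟩ := this
    exact (h1 i).2
  have q0 : q 0 = 1 := by simp [q]
  have qn : q (Nat.card K) = 1 := by
    simp only [q]
    rw [List.take_of_length_le (by rw [List.length_ofFn])]
    exact h3
  have qs : ∀ k (hk : k < (Nat.card K)), q (k + 1) = q k * b ⟨k, hk⟩ := by
    intro k hk
    have hk' : k < (List.ofFn b).length := by rw [List.length_ofFn]; exact hk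
    simp only [q]
    rw [List.take_succ_eq_append_getElem hk', List.prod_append]
    simp
  have qinj : ∀ i, i < (Nat.card K) → ∀ j, j < (Nat.card K) → q i = q j → i = j := by
    -- shift by one, closing up
    have base : ∀ i, 1 ≤ i → i ≤ (Nat.card K) → ∀ j, 1 ≤ j → j ≤ (Nat.card K) → q i = q j → i = j := by
      intro i hi1 hi2 j hj1 hj2 hij
      have := @h2 ⟨i - 1, by omega⟩ ⟨j - 1, by omega⟩ (by
        have e1 : i - 1 + 1 = i := by omega
        have e2 : j - 1 + 1 = j := by omega
        simp only [e1, e2]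
        exact hij)
      have := congrArg Fin.val this
      simp only at this
      omega
    intro i hi j hj hij
    by_cases hi0 : i = 0 <;> by_cases hj0 : j = 0
    · omega
    · subst hi0
      have := base (Nat.card K) (by omega) le_rfl j (by omega) (by omega) (by rw [qn, ← hij, q0])
      omega
    · subst hj0
      have := base i (by omega) (by omega) (Nat.card K) (by omega) le_rfl (by rw [qn, hij, q0])
      omega
    · exact base i (by omega) (by omega) j (by omega) (by omega) hij
  have qsurj : ∀ k ∈ K, ∃ i, i < (Nat.card K) ∧ q i = k := by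
    intro k hk
    let S : Fin (Nat.card K) → K := fun i => ⟨q i.val, qK _⟩
    have Sinj : Function.Injective S := fun i j hij =>
      Fin.ext (qinj _ i.isLt _ j.isLt (congrArg Subtype.val hij))
    have Sbij : Function.Bijective S :=
      (Nat.bijective_iff_injective_and_card S).2
        ⟨Sinj, by rw [Nat.card_eq_fintype_card, Fintype.card_fin]⟩
    obtain ⟨i, hi⟩ := Sbij.2 ⟨k, hk⟩
    exact ⟨i.val, i.isLt, congrArg Subtype.val hi⟩
  -- `|K|` is even
  have hz : q 1 = z := by
    have := qs 0 (by omega)
    rw [q0, one_mul, h4 _ (by simp)] at this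
    exact this
  have hz1 : z ≠ 1 := by
    intro h
    have := qinj 1 (by omega) 0 (by omega) (by rw [hz, h, q0])
    omega
  have hzK : z ∈ K := by rw [← hz]; exact qK 1
  obtain ⟨m, hm⟩ : ∃ m, (Nat.card K) = 2 * m := by
    have h5 : orderOf (⟨z, hzK⟩ : K) = 2 := by
      apply orderOf_eq_prime
      · apply Subtype.ext
        change z ^ 2 = 1
        rw [pow_two, hz2]
      · intro h
        exact hz1 (congrArg Subtype.val h)
    have h6 : orderOf (⟨z, hzK⟩ : K) ∣ Nat.card K := orderOf_dvd_natCard _
    rw [h5] at h6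
    exact h6
  refine (alt_of_seq A z hz2 K m (by omega) q (fun i _ => qK i) ?_ ?_ ?_ ?_ ?_).2
  · intro i hi j hj hij
    exact qinj i (by omega) j (by omega) hij
  · intro k hk
    obtain ⟨i, hi, h⟩ := qsurj k hk
    exact ⟨i, by omega, h⟩
  · rw [← hm, qn, q0]
  · intro i hi
    rw [qs i (by omega), inv_mul_cancel_left]
    exact (h1 _).1
  · left
    intro i hi
    rw [qs (2 * i) (by omega), h4 _ (by simp)]

/-- Let `A` be a symmetric subset of a finite group `G`, and let `z ∈ A` be an involution. Suppose
that one of the following holds.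

* For some subgroup `K ∋ z` of order at least `8`, the elements of `A` which commute with `z`
  generate `G` together with `K`, and `K` has a closed listing by elements of `A` which alternates
  with `z`.
* There is `s ∈ A` such that `s z` has order at least `4`, `z` normalises `⟨s z⟩` and does not lie
  in `⟨s z⟩`, and `s` generates `G` together with the elements of `A` which commute with `z`.
* `A` generates `G`, `z` is central, and there is `s ∈ A` of even order at least `4` such that `z`
  is not a power of `s`.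
* `A` generates `G`, `z` is central, and there is `s ∈ A` of order at least `10`, twice an odd
  number, such that `z` is a power of `s`.
* `A` generates `G`, `z` is central, and there are two involutions `s ≠ t` in `A` with
  `z ∉ ⟨s, t⟩`.
* `A` generates `G`, `z` is central, and there are `s, t ∈ A` such that `t` commutes with `s` or
  inverts it, `s ∉ ⟨z⟩`, `t ∉ ⟨s, z⟩` and the order of `⟨s, t, z⟩` is divisible by four.

Then there are `a_1, …, a_n ∈ A`, `n = |G|`, whose partial products `a_1, a_1 a_2, …, a_1 ⋯ a_n`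
are pairwise distinct and end with `1`. -/
theorem result {G : Type u} [Group G] [Finite G] (A : Set G) (hA : ∀ x ∈ A, x⁻¹ ∈ A)
    (z : G) (hzA : z ∈ A) (hz1 : z ≠ 1) (hz2 : z * z = 1)
    (h : (∃ K : Subgroup G, z ∈ K ∧ 8 ≤ Nat.card K ∧
        Subgroup.closure ((K : Set G) ∪ {t | t ∈ A ∧ t * z = z * t}) = ⊤ ∧
        ∃ b, AlternatingListing A z K b) ∨
      (∃ s ∈ A, 4 ≤ orderOf (s * z) ∧ z ∉ Subgroup.zpowers (s * z) ∧
        z * (s * z) * z ∈ Subgroup.zpowers (s * z) ∧
        Subgroup.closure ({s} ∪ {t | t ∈ A ∧ t * z = z * t}) = ⊤) ∨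
      (Subgroup.closure A = ⊤ ∧ (∀ g, g * z = z * g) ∧
        ((∃ s ∈ A, 4 ≤ orderOf s ∧ Even (orderOf s) ∧ z ∉ Subgroup.zpowers s) ∨
         (∃ s ∈ A, 10 ≤ orderOf s ∧ orderOf s % 4 = 2 ∧ z ∈ Subgroup.zpowers s) ∨
         (∃ s ∈ A, ∃ t ∈ A, s * s = 1 ∧ t * t = 1 ∧ s ≠ 1 ∧ t ≠ 1 ∧ s ≠ t ∧
           z ∉ Subgroup.closure ({s, t} : Set G)) ∨
         (∃ s ∈ A, ∃ t ∈ A, (t⁻¹ * s * t = s ∨ t⁻¹ * s * t = s⁻¹) ∧ s ∉ Subgroup.zpowers z ∧
           t ∉ Subgroup.closure ({s, z} : Set G) ∧
           4 ∣ Nat.card (Subgroup.closure ({s, t, z} : Set G)))))) :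
    ∃ a : Fin (Nat.card G) → G, ClosedListing A a := by
  have fin : ∀ K : Subgroup G, z ∈ K → 8 ≤ Nat.card K →
      Subgroup.closure ((K : Set G) ∪ {t | t ∈ A ∧ t * z = z * t}) = ⊤ → Alt A z K →
      ∃ a : Fin (Nat.card G) → G, ClosedListing A a := by
    rintro K hzK h8 hgen ⟨τ, hτ, hthru⟩
    obtain ⟨σ, hσ⟩ := main A hA z hz2 hz1 K hzK h8 τ hτ hthru hgen
    exact listing_of_cyc hσ
  -- one element
  have one : ∀ s ∈ A, 4 ≤ orderOf (s * z) → z ∉ Subgroup.zpowers (s * z) →
      z * (s * z) * z ∈ Subgroup.zpowers (s * z) →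
      Subgroup.closure ({s} ∪ {t | t ∈ A ∧ t * z = z * t}) = ⊤ →
      ∃ a : Fin (Nat.card G) → G, ClosedListing A a := by
    intro s hs h4 hn hnorm hgen
    obtain ⟨hc, halt⟩ := alt_one A hA z s hzA hs hz2 hn hnorm
    refine fin (Subgroup.closure {s, z}) (Subgroup.subset_closure (by simp)) (by omega) ?_ halt
    rw [eq_top_iff, ← hgen]
    apply Subgroup.closure_mono
    rintro x (hx | hx)
    · left
      rw [Set.mem_singleton_iff] at hx
      rw [hx]
      exact Subgroup.subset_closure (by simp)
    · exact Or.inr hx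
  rcases h with ⟨K, hzK, h8, hgen, b, hb⟩ | ⟨s, hs, h4, hn, hnorm, hgen⟩ | ⟨hgen, hcen, h⟩
  · exact fin K hzK h8 hgen (alt_of_listing A z hz2 K b hb h8)
  · exact one s hs h4 hn hnorm hgen
  · have hgen1 : ∀ S : Set G, Subgroup.closure (S ∪ {t | t ∈ A ∧ t * z = z * t}) = ⊤ := by
      intro S
      rw [eq_top_iff, ← hgen]
      apply Subgroup.closure_mono
      intro x hx
      exact Or.inr ⟨hx, hcen x⟩
    have hcs : ∀ s : G, z * (s * z) * z ∈ Subgroup.zpowers (s * z) := by
      intro s
      have : z * (s * z) * z = s * z := by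
        rw [← mul_assoc, mul_assoc (z * s), hz2, mul_one, hcen s]
      rw [this]
      exact Subgroup.mem_zpowers _
    have hzn : ∀ i : ℕ, (Even i → z ^ i = 1) ∧ (¬ Even i → z ^ i = z) := by
      intro i
      constructor
      · rintro ⟨m, rfl⟩
        rw [← two_mul, pow_mul, pow_two, hz2, one_pow]
      · intro h
        rw [Nat.not_even_iff_odd] at h
        obtain ⟨m, rfl⟩ := h
        rw [pow_succ, pow_mul, pow_two, hz2, one_pow, one_mul]
    have hpw : ∀ (s : G) (i : ℕ), (s * z) ^ i = s ^ i * z ^ i := fun s i =>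
      Commute.mul_pow (hcen s) i
    rcases h with ⟨s, hs, h4, hev, hn⟩ | ⟨s, hs, h10, hmod, hzs⟩ |
      ⟨s, hs, t, ht, hs2, ht2, hs1, ht1, hst, hn⟩ | ⟨s, hs, t, ht, hts, hsz, htS, hdvd⟩
    · -- even order
      have hdvd : orderOf s ∣ orderOf (s * z) := by
        apply orderOf_dvd_of_pow_eq_one
        have h1 : (s * z) ^ orderOf (s * z) = 1 := pow_orderOf_eq_one _
        rw [hpw] at h1
        by_cases hev' : Even (orderOf (s * z))
        · rwa [(hzn _).1 hev', mul_one] at h1
        · exfalso
          rw [(hzn _).2 hev'] at h1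
          apply hn
          have h2 : s ^ orderOf (s * z) = z⁻¹ := eq_inv_of_mul_eq_one_left h1
          have h3 : z⁻¹ ∈ Subgroup.zpowers s := by
            rw [← h2]; exact Subgroup.pow_mem _ (Subgroup.mem_zpowers s) _
          have h4 := Subgroup.inv_mem _ h3
          rwa [inv_inv] at h4
      refine one s hs (h4.trans (Nat.le_of_dvd (orderOf_pos _) hdvd)) ?_ (hcs s) (hgen1 _)
      intro hz
      rw [← mem_powers_iff_mem_zpowers, Submonoid.mem_powers_iff] at hz
      obtain ⟨k, hk⟩ := hz
      rw [hpw] at hk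
      by_cases hk2 : Even k
      · rw [(hzn _).1 hk2, mul_one] at hk
        apply hn
        rw [← hk]
        exact Subgroup.pow_mem _ (Subgroup.mem_zpowers s) _
      · rw [(hzn _).2 hk2] at hk
        have h5 : s ^ k = 1 := mul_eq_right.1 hk
        exact hk2 (hev.trans_dvd (orderOf_dvd_of_pow_eq_one h5))
    · -- twice an odd number
      set m := orderOf s / 2 with hm
      have hm2 : orderOf s = 2 * m := by omega
      have hmodd : m % 2 = 1 := by omega
      have hz : z = s ^ m := by
        rw [← mem_powers_iff_mem_zpowers, Submonoid.mem_powers_iff] at hzs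
        obtain ⟨k, hk⟩ := hzs
        have h1 : s ^ (2 * k) = 1 := by rw [mul_comm, pow_mul, hk, pow_two, hz2]
        have h2 : 2 * m ∣ 2 * k := by rw [← hm2]; exact orderOf_dvd_of_pow_eq_one h1
        have h3 : m ∣ k := Nat.dvd_of_mul_dvd_mul_left (by norm_num) h2
        obtain ⟨l, rfl⟩ := h3
        have h4 : (s ^ m) ^ 2 = 1 := by rw [← pow_mul, mul_comm, ← hm2, pow_orderOf_eq_one]
        rcases Nat.even_or_odd' l with ⟨r, rfl | rfl⟩
        · exfalso
          apply hz1
          rw [← hk, pow_mul, pow_mul, h4, one_pow]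
        · rw [← hk, pow_mul, pow_succ, pow_mul, h4, one_pow, one_mul]
      have hw : s * z = s ^ (m + 1) := by rw [hz, pow_succ']
      have hgcd : Nat.gcd (2 * m) (m + 1) = 2 := by
        obtain ⟨r, hr⟩ : ∃ r, m = 2 * r + 1 := ⟨m / 2, by omega⟩
        have e : m + 1 = 2 * (r + 1) := by omega
        rw [e, Nat.gcd_mul_left, hr]
        have h1 : 2 * r + 1 = r + (r + 1) := by ring
        have h2 : Nat.gcd (2 * r + 1) (r + 1) = 1 := by
          rw [h1, Nat.gcd_add_self_left]
          exact Nat.coprime_self_add_right.2 (Nat.coprime_one_right r)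
        rw [h2]
      have hord : orderOf (s * z) = m := by
        rw [hw, orderOf_pow, hm2, hgcd]
        omega
      refine one s hs (by rw [hord]; omega) ?_ (hcs s) (hgen1 _)
      intro hz'
      have h1 : orderOf z ∣ orderOf (s * z) := orderOf_dvd_of_mem_zpowers hz'
      rw [hord, orderOf_eq_prime (p := 2) (by rw [pow_two]; exact hz2) hz1] at h1
      omega
    · -- two involutions
      obtain ⟨hc, halt⟩ := alt_two A z s t hzA hs ht hz2 hz1 hs2 ht2 hs1 ht1 hst (hcen s)
        (hcen t) hn
      refine fin _ (Subgroup.subset_closure (by simp)) ?_ (hgen1 _) halt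
      have h2 : orderOf (s * t) ≠ 1 := by
        intro h
        rw [orderOf_eq_one_iff] at h
        apply hst
        have : s = t⁻¹ := eq_inv_of_mul_eq_one_left h
        rw [this, inv_eq_of_mul_eq_one_left ht2]
      have h3 : 0 < orderOf (s * t) := orderOf_pos _
      omega
    · obtain ⟨hc, halt⟩ := alt_grid A hA z s t hzA hs ht hz2 hz1 (hcen s) (hcen t) hts hsz htS hdvd
      exact fin _ (Subgroup.subset_closure (by simp)) hc (hgen1 _) halt

end Pool.Agent.Results.MP_688fd0_co.CentralInvolution
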