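import Pool.Agent.U801.CT.Main

/-!
# Listing sequences for groups of nilpotency class at most two

Let `G` be a finite group of nilpotency class at most two and `S ≠ ∅` a symmetric generating set. Then
`Cay(G, S)` has a Hamiltonian path, and the end points of the Hamiltonian paths which start at `1`
generate `G`. (This is `N = H = 1`, `p = [1]` below.)

More generally let `N ≤ H` be subgroups of `G` such that `N` is normal, `G / N` has class at most two
and the subgraph of `Cay(G, S)` on `H` has a Hamiltonian path, which is closed if `H ≠ N`. If every
element of `H` has an odd power in `N`, the same holds (generation modulo `N`); if `G` is generated by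
`H` and one element `s` of `S` (and `S ⊆ H ∪ {s, s⁻¹}`), then there is a Hamiltonian path.

Idea of the proof.

*Extension by one element.* Let `K = ⟨H, s⟩`, where all commutators `[h, s]`, `h ∈ H`, are central,
and let `E ⊆ H` be a symmetric generating set of `H`. Let `M` be the group of the commutators `[h, s]`
modulo `H` and `m` the order of `s` modulo `M H`. There is a walk with steps in `E s ∪ E s⁻¹` which
visits every left coset of `H` in `K` exactly once. A left coset of `H` is given by its layer
`j` (mod `m`) and an element of `M`. If `m` is even, one goes to and fro between the layers `2 i`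
and `2 i + 1`, where the cosets of both layers are visited in the order given by a Hamiltonian path of
`M` with steps `[e, s]`, `e ∈ E`. If `m` is odd, let `s ^ m = z h₀`, `z ∈ M`, and let `P_0, …, P_{2k}` be
a Hamiltonian path of `M / ⟨z⟩` (its order is odd, because the exponent of `M` divides `m`). One goes to
and fro between the layers `j` and `j + 1` so that in layer `j` the cosets of `P_k, …, P_{2k}` and in
layer `j + 1` those of `P_0, …, P_k` are visited, and repeats this with the same steps; after `m` rounds
one has gone from the first coset to its translate by `z`.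

*From cosets to elements.* If `E` is the set of the end points of the Hamiltonian paths of `H` which
start at `1`, every point of this walk can be replaced by a path through its coset.

*The end points generate.* Otherwise they are in a maximal subgroup `C ≥ N`, which is normal. As all
end points of the last coset can be used, `C` has index two, no end point of a Hamiltonian path of a
subgroup `H_t`, generated by all generators but `t`, is in `C`, but all `t` are in `C`.
-/

set_option autoImplicit false

open scoped commutatorElement

namespace Pool.Agent.Results.MP_688fd0_co.NilpotentClassTwo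

open Pool.Agent.U801.CT

/-- Let `G` be a finite group with a symmetric generating set `S ≠ ∅`, and let `N ≤ H` be subgroups with
`N` normal such that all `[[a, b], c]` are in `N` and there is a path in `Cay(G, S)` which visits exactly
the elements of `H`, where `H = N` or the path is closed (a step in `S` leads from its last to its first
element). Suppose that every element of `H` has an odd power in `N`, or that `S ⊆ H ∪ {s, s⁻¹}` for some
`s ∈ S`.

* Then there are `a_1, …, a_n ∈ S`, `n = |G|`, whose partial products `a_1, a_1 a_2, …, a_1 ⋯ a_n` are
  pairwise distinct.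
* If every element of `H` has an odd power in `N` then `G` is generated by `N` and the end points of the
  Hamiltonian paths of `Cay(G, S)` which start at `1`.

With `N = H = 1` this is the case of the groups of nilpotency class at most two. -/
theorem result {G : Type*} [Group G] [Finite G] (S : Set G) (hne : S.Nonempty)
    (hS : ∀ x ∈ S, x⁻¹ ∈ S) (hgen : Subgroup.closure S = ⊤) (N H : Subgroup G) [N.Normal]
    (hNH : N ≤ H) (hcl : ∀ a b c : G, ⁅⁅a, b⁆, c⁆ ∈ N)
    (hH : ∃ p : List G, p.Nodup ∧ (∀ g, g ∈ p ↔ g ∈ H) ∧ p.IsChain (fun g h => g⁻¹ * h ∈ S) ∧
      (H = N ∨ ∃ x y, p.head? = some x ∧ p.getLast? = some y ∧ y⁻¹ * x ∈ S))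
    (hext : (∀ h ∈ H, ∃ k : ℕ, Odd k ∧ h ^ k ∈ N) ∨ ∃ s ∈ S, S ⊆ H ∪ {s, s⁻¹}) :
    (∃ a : Fin (Nat.card G) → G, (∀ i, a i ∈ S) ∧
      Function.Injective (fun k : Fin (Nat.card G) => ((List.ofFn a).take (k.val + 1)).prod)) ∧
    ((∀ h ∈ H, ∃ k : ℕ, Odd k ∧ h ^ k ∈ N) →
      Subgroup.closure {e : G | ∃ p : List G, p.Nodup ∧ (∀ g, g ∈ p) ∧
        p.IsChain (fun g h => g⁻¹ * h ∈ S) ∧ p.head? = some 1 ∧ p.getLast? = some e} ⊔ N = ⊤) := by
  obtain ⟨h1, h2⟩ := main hS hgen hNH hcl hH
  refine ⟨?_, fun h => (h1 h).2⟩
  obtain ⟨e, he⟩ : (Pool.Agent.N47.CG.Ends S (⊤ : Subgroup G)).Nonempty := by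
    rcases hext with h | h
    · exact (h1 h).1
    · exact h2 h
  exact listing_of_end hne he

end Pool.Agent.Results.MP_688fd0_co.NilpotentClassTwo
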