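import Pool.Agent.U122.HX.Main

/-!
# Hamiltonian cycles in all Cayley graphs whose connection set contains a subgroup of order at least 18

Let `G` be a finite group and `A` a symmetric generating set such that `A ∪ {1}` contains a subgroup `H`
with at least 18 elements. There is no condition on `G` and on the other elements of `A`. Then there is
a closed listing sequence (a Hamiltonian cycle of `Cay(G, A)`).

Outline. Let `B` be a minimal symmetric set of elements of `A ∖ H` which generates `G` together with
`H`. In the graph of the left cosets of `H` whose edges are the edges `{x, x b}`, `b ∈ B`, of the Cayley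
graph, a smallest cut is given by a subgroup `K ≥ H` and has `|K| |B ∖ K|` edges, which is at least
`(2/3) |H| |B|` by the minimality of `B` (`Pool.Agent.U122.HX.Cut`). An argument of Haxell's type, for
bases of a vector space instead of transversals (`Pool.Agent.U122.HX.Lin`), gives two spanning trees
`T₁`, `T₂` of the coset graph such that `T₁ ∪ T₂` is a matching of the Cayley graph
(`Pool.Agent.U122.HX.Graph`). For some `J ⊆ T₂` the matching `T₁ ∪ J` has an even number of ends in
every coset. The ends in the cosets are paired, the resulting cycles are directed, the remaining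
elements are inserted, and cycles which meet the same coset are merged (`Pool.Agent.U122.HX.Asm`).
-/

set_option autoImplicit false

namespace Pool.Agent.Results.MP_688fd0_co.SubgroupCliques

/-- Let `A` be a symmetric generating set of the finite group `G` and `H` a subgroup with at least 18
elements such that all elements of `H` different from `1` belong to `A`. Then there are
`a_1, …, a_n ∈ A`, `n = |G|`, with pairwise distinct partial products `a_1, a_1 a_2, …, a_1 ⋯ a_n`, the
last of which is `1`. -/
theorem result {G : Type*} [Group G] [Finite G] (A : Set G) (hA : ∀ x ∈ A, x⁻¹ ∈ A)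
    (hgen : Subgroup.closure A = ⊤) (H : Subgroup G) (hH : 18 ≤ Nat.card H)
    (hHA : ∀ h ∈ H, h ≠ 1 → h ∈ A) :
    ∃ a : Fin (Nat.card G) → G, (∀ i, a i ∈ A) ∧
      Function.Injective (fun k : Fin (Nat.card G) => ((List.ofFn a).take (k.val + 1)).prod) ∧
      (List.ofFn a).prod = 1 := by
  have : Fintype G := Fintype.ofFinite G
  obtain ⟨σ, hσ⟩ := Pool.Agent.U122.HX.cyc_of_subgroup H A hA hgen hHA hH
  obtain ⟨a, ha⟩ := Pool.Agent.R759.HC.listing_of_cyc hσ
  exact ⟨a, ha.1, ha.2.1, ha.2.2⟩

end Pool.Agent.Results.MP_688fd0_co.SubgroupCliques
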